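import Pool.Agent.H499.RL.Adm

/-!
# Irreducible `p`-adic approximations of `ρ ⊕ 1 ⊕ ω` produce Selmer classes (Ribet's lemma without families)

The method of Ribet, Bellaïche-Chenevier and Skinner-Urban for the sign conjecture (Q1): start with a non-tempered
automorphic representation `π'` of `U(n + 2)` with Galois representation `ρ_π ⊕ 1 ⊕ ω` (it exists if `ε(π) = -1`),
deform it `p`-adically in a family (an eigenvariety) with irreducible members, and find in the family, by a lattice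
argument over the local ring of the family (Ribet's lemma), a nonsplit extension of `1` by `ρ_π` with the right local
properties. We prove the lattice argument for a mere SEQUENCE of approximations instead of a family: the
representations `ρ'` near to `ρ_π ⊕ 1 ⊕ ω` need not belong to a family, their Frobenius traces need to be congruent
only at most primes (or at finitely many places), their coefficients can be in finite extensions of `ℚ_p` of
unbounded degree, and the constituents are arbitrary, for example isomorphic.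

Let `K` be a number field, `p` a prime number (called `ℓ` below), `k` the algebraic closure of `ℚ_p`, `S` a finite set
of finite places, `ρ_1, …, ρ_s` irreducible continuous representations of `G_K` over `k` of dimensions `d_i`,
unramified outside `S`, `n = ∑ d_i`. Local conditions: subgroups `D_1, …, D_r` of `G_K` with functions `χ_i : D_i → k`
(in the applications `D_i` is an inertia or decomposition group and `χ_i = 1` or a character); `V^{D_i, χ_i}` is the space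
of the `x ∈ V` with `σ x = χ_i(σ) x` for `σ ∈ D_i`. `Ext_D(ρ_j, ρ_i)` is the space of the classes of the extensions
`0 → ρ_i → U → ρ_j → 0` which are continuous, unramified outside `S`, with `U^{D_k, χ_k} → ρ_j^{D_k, χ_k}` surjective
for all `k`; for `ρ_j = 1`, `χ_k = 1` this is the local condition of Q1 at the places `v ∤ p` (`D_k = I_v`).
Let `ρ'` be an irreducible or reducible continuous representation over `k` of dimension `n`, unramified outside `S`,
and `m` a natural number. We say that `ρ'` is `m`-near if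
* its Frobenius traces are congruent modulo `p^m` to those of `⊕ ρ_i` outside a set of places of upper density less
  than `1/(n² + ∑ d_i²)`, and
* there are functions `χ'_k`, congruent to `χ_k` modulo `p^m`, with `dim (ρ')^{D_k, χ'_k} ≥ ∑_i dim ρ_i^{D_k, χ_k}`.

1. DECOMPOSITION. Let `T` be a set of indices with `Ext_D(ρ_j, ρ_i) = 0` for all `j ∈ T`, `i ∉ T`. For every `N` there is
   `m` such that every `m`-near `ρ'` has a stable subspace of dimension `∑_{j ∈ T} d_j`, on which the traces are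
   congruent modulo `p^N` to those of `⊕_{j ∈ T} ρ_j`.
2. STRONG CONNECTEDNESS. If for every `m` there is an irreducible `m`-near `ρ'`, then the graph on `{1, …, s}` with an
   edge from `j` to `i` if `Ext_D(ρ_j, ρ_i) ≠ 0` is strongly connected.
3. SELMER CLASSES. If moreover `s ≥ 2` and `ρ_j` is the trivial representation (`χ_k = 1` for all `k`), then
   `H¹_D(K, ρ_i) ≠ 0` for some `i ≠ j`. So for `ρ_π, 1, ω`: if there are irreducible `m`-near `ρ'` for all `m`,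
   then `H¹_D(K, ρ_π) ≠ 0` or `H¹_D(K, ω) ≠ 0`. (For imaginary quadratic `K` the group `H¹_f(K, ω)` is zero: it is the
   group of the units of `K`, tensor `ℚ_p`.)
4. FINITELY MANY PLACES. Let `U` be an open subgroup of `G_K`. There is a finite set `P` of places outside `S`,
   depending only on `K, p, n, S, U`, such that for representations `ρ_i`, `ρ'` which are residually unipotent on
   `U` in 1, 2, 3 the congruence of the traces modulo `p^m` at the places of `P` is enough.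

So Q1 for `π` follows if `ρ_π ⊕ 1 ⊕ ω` can be approximated `p`-adically, at most primes, by irreducible representations
whose local invariants are not smaller; no eigenvariety through `π'` is necessary. At a place `v | p` the condition
`(ρ')^{G_v, χ'} ≠ 0` with a character `χ'` near to `1` is the one of (nearly) ordinary representations `ρ'` of varying
weights; in the limit it gives the extensions of `1` which split at `v`, the condition of `H¹_f` if
`H¹_f(K_v, ρ_π) = 0`.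

Bellaïche and Chenevier have the theorem for families over henselian local rings (reducibility ideals of
pseudocharacters with pairwise non-isomorphic residual constituents), Ribet and Bellaïche for discrete valuation rings.

Idea of the proof. The traces are congruent everywhere. By an ultraproduct argument and the theorem of Brauer and
Nesbitt `ρ'` is conjugate to a representation near to `⊕ ρ_i`, so it is `(a b; c d)` with `a`, `d` near to
`⊕_{i ∉ T} ρ_i`, `⊕_{j ∈ T} ρ_j`, `b` bounded and `c` small. Then `b` is an approximate cocycle; by compactness (over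
the field of the `ρ_i`, with coordinates in the field of `ρ'`) and `Ext_D = 0` it is near to a coboundary. Conjugate by
a unipotent matrix of bounded norm, divide `b` by `p` and multiply `c` by `p`, and iterate; the product of the
unipotent matrices converges, so that `b` is exactly a coboundary.
-/

set_option autoImplicit false

namespace Pool.Agent.Results.MP_b4b3cb_nt.SelmerClassesFromApproximations

open Matrix Module NumberField IsDedekindDomain
open Pool.Agent.W401.Cheb (GK IsFrob IsInert)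
open Pool.Agent.H499.CM Pool.Agent.H499.SM Pool.Agent.H499.RL
open Pool.Agent.H499.PW (AdmAdic exists_P isometry)

/-- representations of the absolute Galois group over the algebraic closure of `ℚ_ℓ` -/
abbrev Rep (K : Type) [Field K] [NumberField K] (ℓ : ℕ) [Fact ℓ.Prime] (n : ℕ) : Type :=
  GK K →* GL (Fin n) (PadicAlgCl ℓ)

section

variable {K : Type} [Field K] [NumberField K] {ℓ : ℕ} [Fact ℓ.Prime] {n : ℕ}

/-- the matrix of `σ` -/
noncomputable def mat (ρ : Rep K ℓ n) (σ : GK K) : Matrix (Fin n) (Fin n) (PadicAlgCl ℓ) := ρ σ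

/-- `ρ` is continuous and unramified outside `S` -/
def Unramified (S : Set (HeightOneSpectrum (𝓞 K))) (ρ : Rep K ℓ n) : Prop :=
  Continuous ρ ∧ ∀ v ∉ S, ∀ σ, IsInert v σ → ρ σ = 1

/-- `ρ` is irreducible -/
def Irreducible (ρ : Rep K ℓ n) : Prop :=
  0 < n ∧ ∀ W : Submodule (PadicAlgCl ℓ) (Fin n → PadicAlgCl ℓ), (∀ σ, ∀ w ∈ W, mat ρ σ *ᵥ w ∈ W) →
    W = ⊥ ∨ W = ⊤

/-- the vectors `x` with `ρ σ x = χ σ x` for all `σ` in `D` -/
def Eigenvectors (ρ : Rep K ℓ n) (D : Subgroup (GK K)) (χ : GK K → PadicAlgCl ℓ) :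
    Submodule (PadicAlgCl ℓ) (Fin n → PadicAlgCl ℓ) where
  carrier := {x | ∀ σ ∈ D, mat ρ σ *ᵥ x = χ σ • x}
  add_mem' := by
    intro x y hx hy σ hσ
    rw [Matrix.mulVec_add, hx σ hσ, hy σ hσ, smul_add]
  zero_mem' := fun σ _ => by rw [Matrix.mulVec_zero, smul_zero]
  smul_mem' := by
    intro a x hx σ hσ
    rw [Matrix.mulVec_smul, hx σ hσ, smul_comm]

/-- `Ext_D(ρ₁, ρ₂) = 0`: all extensions `0 → ρ₂ → U → ρ₁ → 0`, given by `c` with values in `Hom(ρ₁, ρ₂)`, which are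
continuous, unramified outside `S`, and such that for all `i` every `y` in `ρ₁ ^ (D i, χ i)` lifts to a vector `(u, y)`
in `U ^ (D i, χ i)`, are split. -/
def AllSplit (S : Set (HeightOneSpectrum (𝓞 K))) {r : ℕ} (D : Fin r → Subgroup (GK K))
    (χ : Fin r → GK K → PadicAlgCl ℓ) {a b : ℕ} (ρ₁ : Rep K ℓ a) (ρ₂ : Rep K ℓ b) : Prop :=
  ∀ c : GK K → Matrix (Fin b) (Fin a) (PadicAlgCl ℓ), (∀ p q, Continuous fun σ => c σ p q) →
    (∀ σ τ, c (σ * τ) = mat ρ₂ σ * c τ + c σ * mat ρ₁ τ) → (∀ v ∉ S, ∀ σ, IsInert v σ → c σ = 0) →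
    (∀ i, ∀ y ∈ Eigenvectors ρ₁ (D i) (χ i), ∃ u : Fin b → PadicAlgCl ℓ, ∀ σ ∈ D i,
      mat ρ₂ σ *ᵥ u + c σ *ᵥ y = χ i σ • u) →
    ∃ x : Matrix (Fin b) (Fin a) (PadicAlgCl ℓ), ∀ σ, c σ = mat ρ₂ σ * x - x * mat ρ₁ σ

/-- `H¹_D(K, ρ) ≠ 0`: there is a continuous cocycle which is zero on the inertia groups outside `S` and a coboundary
on every `D i`, and is not a coboundary -/
def HasSelmerClass (S : Set (HeightOneSpectrum (𝓞 K))) {r : ℕ} (D : Fin r → Subgroup (GK K)) (ρ : Rep K ℓ n) : Prop :=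
  ∃ c : GK K → Fin n → PadicAlgCl ℓ, Continuous c ∧ (∀ σ τ, c (σ * τ) = c σ + mat ρ σ *ᵥ c τ) ∧
    (∀ v ∉ S, ∀ σ, IsInert v σ → c σ = 0) ∧
    (∀ i, ∃ x : Fin n → PadicAlgCl ℓ, ∀ σ ∈ D i, c σ = mat ρ σ *ᵥ x - x) ∧
    ¬ ∃ x : Fin n → PadicAlgCl ℓ, ∀ σ, c σ = mat ρ σ *ᵥ x - x

variable {s : ℕ} {d : Fin s → ℕ}

/-- the trace of `ρ'` at the geometric Frobenius elements of `v` is congruent modulo `ℓ ^ m` to the one of the
sum of the `ρ i` -/
def CongruentAt (m : ℕ) (ρ : ∀ i, Rep K ℓ (d i)) (ρ' : Rep K ℓ n) (v : HeightOneSpectrum (𝓞 K)) : Prop :=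
  ∀ σ, IsFrob v σ → ‖(mat ρ' σ⁻¹).trace - ∑ i, (mat (ρ i) σ⁻¹).trace‖ ≤ ‖(ℓ : PadicAlgCl ℓ)‖ ^ m

/-- this holds outside a set of places of upper density less than `1 / (n ^ 2 + ∑ d_i ^ 2)` -/
def CongruentMostly (S : Set (HeightOneSpectrum (𝓞 K))) (m : ℕ) (ρ : ∀ i, Rep K ℓ (d i)) (ρ' : Rep K ℓ n) : Prop :=
  ∃ δ : ℝ, δ * ((n ^ 2 + ∑ i, d i ^ 2 : ℕ) : ℝ) < 1 ∧ UpperDensityLE (fun v => v ∉ S ∧ ¬ CongruentAt m ρ ρ' v) δ

/-- the local invariants of `ρ'` are not smaller than those of the sum of the `ρ i`, with eigenvalues congruent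
modulo `ℓ ^ m` -/
def LocalCondition (m : ℕ) {r : ℕ} (D : Fin r → Subgroup (GK K)) (χ : Fin r → GK K → PadicAlgCl ℓ)
    (ρ : ∀ i, Rep K ℓ (d i)) (ρ' : Rep K ℓ n) : Prop :=
  ∀ k, ∃ χ' : GK K → PadicAlgCl ℓ, (∀ σ ∈ D k, ‖χ' σ - χ k σ‖ ≤ ‖(ℓ : PadicAlgCl ℓ)‖ ^ m) ∧
    ∑ i, finrank (PadicAlgCl ℓ) (Eigenvectors (ρ i) (D k) (χ k)) ≤
      finrank (PadicAlgCl ℓ) (Eigenvectors ρ' (D k) χ')

/-- `ρ'` has a subrepresentation `τ` (embedded by the matrix `J`) of dimension `∑_{j ∈ T} d j`, and the traces of `τ` are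
congruent modulo `ℓ ^ N` to those of the sum of the `ρ j`, `j ∈ T`. -/
def HasPart (ρ : ∀ i, Rep K ℓ (d i)) (T : Finset (Fin s)) (N : ℕ) (ρ' : Rep K ℓ n) : Prop :=
  ∃ (τ : Rep K ℓ (∑ j ∈ T, d j)) (J : Matrix (Fin n) (Fin (∑ j ∈ T, d j)) (PadicAlgCl ℓ)),
    (∀ x, J *ᵥ x = 0 → x = 0) ∧ (∀ σ, mat ρ' σ * J = J * mat τ σ) ∧
    ∀ σ, ‖(mat τ σ).trace - ∑ j ∈ T, (mat (ρ j) σ).trace‖ ≤ ‖(ℓ : PadicAlgCl ℓ)‖ ^ N

/-- 1. -/
def Decomposition (S : Set (HeightOneSpectrum (𝓞 K))) (ρ : ∀ i, Rep K ℓ (d i)) (Near : ℕ → Rep K ℓ n → Prop) : Prop :=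
  ∀ (r : ℕ) (D : Fin r → Subgroup (GK K)) (χ : Fin r → GK K → PadicAlgCl ℓ) (T : Finset (Fin s)),
    (∀ j ∈ T, ∀ i ∉ T, AllSplit S D χ (ρ j) (ρ i)) → ∀ N : ℕ, ∃ m : ℕ, ∀ ρ' : Rep K ℓ n,
      Near m ρ' → LocalCondition m D χ ρ ρ' → HasPart ρ T N ρ'

/-- 2. -/
def StronglyConnected (S : Set (HeightOneSpectrum (𝓞 K))) (ρ : ∀ i, Rep K ℓ (d i)) (Near : ℕ → Rep K ℓ n → Prop) :
    Prop :=
  ∀ (r : ℕ) (D : Fin r → Subgroup (GK K)) (χ : Fin r → GK K → PadicAlgCl ℓ),
    (∀ m, ∃ ρ' : Rep K ℓ n, Near m ρ' ∧ LocalCondition m D χ ρ ρ' ∧ Irreducible ρ') →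
      ∀ i j, Relation.ReflTransGen (fun i j => ¬ AllSplit S D χ (ρ i) (ρ j)) i j

/-- 3. -/
def SelmerClasses (S : Set (HeightOneSpectrum (𝓞 K))) (ρ : ∀ i, Rep K ℓ (d i)) (Near : ℕ → Rep K ℓ n → Prop) : Prop :=
  ∀ (r : ℕ) (D : Fin r → Subgroup (GK K)),
    (∀ m, ∃ ρ' : Rep K ℓ n, Near m ρ' ∧ LocalCondition m D (fun _ _ => 1) ρ ρ' ∧ Irreducible ρ') → 2 ≤ s →
      ∀ j, d j = 1 → (∀ σ, ρ j σ = 1) → ∃ i, i ≠ j ∧ HasSelmerClass S D (ρ i)

end

/-! ### The proof -/

section proof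

variable {K : Type} [Field K] [NumberField K] {ℓ : ℕ} [Fact ℓ.Prime] {n : ℕ} {S : Set (HeightOneSpectrum (𝓞 K))}
  {s : ℕ} {d : Fin s → ℕ} {ρ : ∀ i, Rep K ℓ (d i)}

theorem ext_of_split {r : ℕ} {D : Fin r → Subgroup (GK K)} {χ : Fin r → GK K → PadicAlgCl ℓ} {a b : ℕ}
    {ρ₁ : Rep K ℓ a} {ρ₂ : Rep K ℓ b} (h : AllSplit S D χ ρ₁ ρ₂) :
    ExtZero (mt ρ₂) (mt ρ₁) (Inr S) (fun i => (D i : Set (GK K))) χ :=
  fun c h1 h2 h3 h4 => h c h1 h2 (fun v hv σ hσ => h3 σ ⟨v, hv, hσ⟩) h4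

theorem eq_of_mul {a b c : Type} [Fintype a] [Fintype b] [Fintype c] [DecidableEq c] {J : Matrix a b (PadicAlgCl ℓ)}
    (h : ∀ x, J *ᵥ x = 0 → x = 0) {M M' : Matrix b c (PadicAlgCl ℓ)} (hM : J * M = J * M') : M = M' := by
  have h1 : ∀ q, (fun p => M p q - M' p q) = 0 := by
    intro q
    refine h _ ?_
    funext i
    have h2 := congrFun (congrFun hM i) q
    rw [Matrix.mul_apply, Matrix.mul_apply] at h2
    show ∑ p, J i p * (M p q - M' p q) = 0
    simp only [mul_sub]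
    rw [Finset.sum_sub_distrib, h2, sub_self]
  ext p q
  exact sub_eq_zero.1 (congrFun (h1 q) p)

theorem part_of_matrix {ρ' : Rep K ℓ n} (T : Finset (Fin s)) (N : ℕ) (inst : Fintype {j // j ∈ T})
    (J : Matrix (Fin n) (Σ j : {j // j ∈ T}, Fin (d j)) (PadicAlgCl ℓ))
    (δ : GK K → Matrix (Σ j : {j // j ∈ T}, Fin (d j)) (Σ j : {j // j ∈ T}, Fin (d j)) (PadicAlgCl ℓ))
    (h1 : ∀ x, J *ᵥ x = 0 → x = 0) (h2 : ∀ g, mt ρ' g * J = J * δ g)
    (h3 : ∀ g, ‖(δ g).trace - ∑ j : {j // j ∈ T}, (mt (ρ j) g).trace‖ ≤ ‖(ℓ : PadicAlgCl ℓ)‖ ^ N) :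
    HasPart ρ T N ρ' := by
  classical
  have hinst : inst = Finset.Subtype.fintype T := Subsingleton.elim _ _
  subst hinst
  have hcard : Fintype.card (Fin (∑ j ∈ T, d j)) = Fintype.card (Σ j : {j // j ∈ T}, Fin (d j)) := by
    rw [Fintype.card_fin, Fintype.card_sigma]
    simp only [Fintype.card_fin]
    exact (Finset.sum_coe_sort T d).symm
  let e : Fin (∑ j ∈ T, d j) ≃ (Σ j : {j // j ∈ T}, Fin (d j)) := Fintype.equivOfCardEq hcard
  set J' : Matrix (Fin n) (Fin (∑ j ∈ T, d j)) (PadicAlgCl ℓ) := J.submatrix id e with hJ'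
  set δ' : GK K → Matrix (Fin (∑ j ∈ T, d j)) (Fin (∑ j ∈ T, d j)) (PadicAlgCl ℓ) := fun g =>
    (δ g).submatrix e e with hδ'
  have h1' : ∀ x, J' *ᵥ x = 0 → x = 0 := by
    intro x hx
    have h4 := h1 (fun q => x (e.symm q)) (by
      funext i
      have h5 := congrFun hx i
      have h6 : (J' *ᵥ x) i = (J *ᵥ fun q => x (e.symm q)) i := by
        show ∑ p, J i (e p) * x p = ∑ q, J i q * x (e.symm q)
        refine Fintype.sum_equiv e _ _ fun p => ?_
        rw [Equiv.symm_apply_apply]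
      rw [← h6]
      exact h5)
    funext p
    have h5 := congrFun h4 (e p)
    rw [Equiv.symm_apply_apply] at h5
    exact h5
  have h2' : ∀ g, mt ρ' g * J' = J' * δ' g := by
    intro g
    have h4 : mt ρ' g * J' = (mt ρ' g * J).submatrix id e := rfl
    rw [h4, h2, ← Matrix.submatrix_mul_equiv J (δ g) id e e]
  let τ : GK K →* Matrix (Fin (∑ j ∈ T, d j)) (Fin (∑ j ∈ T, d j)) (PadicAlgCl ℓ) :=
    { toFun := δ'
      map_one' := by
        refine eq_of_mul h1' ?_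
        rw [← h2', map_one, Matrix.one_mul, Matrix.mul_one]
      map_mul' := fun g g' => by
        refine eq_of_mul h1' ?_
        rw [← h2', map_mul, Matrix.mul_assoc, h2', ← Matrix.mul_assoc, h2', Matrix.mul_assoc] }
  refine ⟨τ.toHomUnits, J', h1', h2', fun σ => ?_⟩
  have h4 : (mat τ.toHomUnits σ).trace = (δ σ).trace := by
    show ∑ p, δ σ (e p) (e p) = ∑ q, δ σ q q
    exact Fintype.sum_equiv e _ _ fun p => rfl
  have h6 : ∑ j ∈ T, (mat (ρ j) σ).trace = ∑ j : {j // j ∈ T}, (mt (ρ j) σ).trace :=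
    (Finset.sum_coe_sort T fun j => (mt (ρ j) σ).trace).symm
  rw [h4, h6]
  exact h3 σ

theorem decomposition (hS : S.Finite) (hρ : ∀ i, Unramified S (ρ i)) (hirr : ∀ i, Irreducible (ρ i))
    (hn : n = ∑ i, d i) (Near : ℕ → Rep K ℓ n → Prop)
    (hNear : ∀ m ρ', Near m ρ' → Unramified S ρ' ∧
      ∀ σ, ‖(mat ρ' σ).trace - ∑ i, (mat (ρ i) σ).trace‖ ≤ ‖(ℓ : PadicAlgCl ℓ)‖ ^ m) :
    Decomposition S ρ Near := by
  classical
  intro r D χ T hT N
  obtain ⟨ε, hε, h⟩ := galois_core hS (fun i => gd_of_cont (hρ i).1 (hρ i).2) (fun i => hirr i)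
    (fun i => (D i : Set (GK K))) (fun i => (D i).one_mem) χ (fun j => j ∈ T)
    (fun i j hi hj => ext_of_split (hT j hj i hi)) hn (pow_pos (norm_ell_pos (ℓ := ℓ)) N)
  obtain ⟨m, hm⟩ := exists_pow_lt_of_lt_one hε (norm_ell_lt (ℓ := ℓ))
  refine ⟨m, fun ρ' hρ' hloc => ?_⟩
  obtain ⟨hu, htr⟩ := hNear m ρ' hρ'
  obtain ⟨J, δ, h1, h2, h3⟩ := h ρ' (gd_of_cont hu.1 hu.2) (fun g => (htr g).trans hm.le) (fun k => by
    obtain ⟨χ', h4, h5⟩ := hloc k
    exact ⟨χ', fun g hg => (h4 g hg).trans hm.le, h5⟩)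
  exact part_of_matrix T N _ J δ h1 h2 h3

theorem not_irreducible {ρ' : Rep K ℓ n} (hn : n = ∑ i, d i) (hd : ∀ i, 0 < d i) {T : Finset (Fin s)} {N : ℕ}
    (h : HasPart ρ T N ρ') {i j : Fin s} (hi : i ∈ T) (hj : j ∉ T) : ¬ Irreducible ρ' := by
  rintro ⟨-, hW⟩
  obtain ⟨τ, J, hJ1, hJ2, -⟩ := h
  have h1 : 0 < ∑ k ∈ T, d k := lt_of_lt_of_le (hd i) (Finset.single_le_sum (fun k _ => Nat.zero_le (d k)) hi)
  have h2 : ∑ k ∈ T, d k < n := by
    rw [hn]
    exact Finset.sum_lt_sum_of_subset (Finset.subset_univ T) (Finset.mem_univ j) hj (hd j) fun k _ _ => Nat.zero_le _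
  have hinj : Function.Injective J.mulVecLin := by
    rw [← LinearMap.ker_eq_bot, LinearMap.ker_eq_bot']
    exact fun x hx => hJ1 x hx
  have hr : finrank (PadicAlgCl ℓ) (LinearMap.range J.mulVecLin) = ∑ k ∈ T, d k := by
    rw [LinearMap.finrank_range_of_inj hinj, Module.finrank_fin_fun]
  rcases hW (LinearMap.range J.mulVecLin) (by
    rintro σ _ ⟨x, rfl⟩
    refine ⟨mat τ σ *ᵥ x, ?_⟩
    rw [Matrix.mulVecLin_apply, Matrix.mulVecLin_apply, Matrix.mulVec_mulVec, Matrix.mulVec_mulVec, hJ2]) with h3 | h3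
  · rw [h3, finrank_bot] at hr
    omega
  · rw [h3, finrank_top, Module.finrank_fin_fun] at hr
    omega

theorem connected (hn : n = ∑ i, d i) (hd : ∀ i, 0 < d i) {Near : ℕ → Rep K ℓ n → Prop}
    (hdec : Decomposition S ρ Near) : StronglyConnected S ρ Near := by
  classical
  intro r D χ happ i j
  by_contra hcon
  set E : Fin s → Fin s → Prop := fun i j => ¬ AllSplit S D χ (ρ i) (ρ j) with hE
  set T : Finset (Fin s) := Finset.univ.filter fun k => Relation.ReflTransGen E i k with hT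
  obtain ⟨m, hm⟩ := hdec r D χ T (fun b hb a ha => by
    rw [hT, Finset.mem_filter] at hb ha
    by_contra hs
    exact ha ⟨Finset.mem_univ a, hb.2.tail hs⟩) 0
  obtain ⟨ρ', h1, h2, h3⟩ := happ m
  refine not_irreducible hn hd (hm ρ' h1 h2) (i := i) (j := j) ?_ ?_ h3
  · rw [hT, Finset.mem_filter]
    exact ⟨Finset.mem_univ i, Relation.ReflTransGen.refl⟩
  · rw [hT, Finset.mem_filter]
    exact fun h => hcon h.2

theorem split_of_no_class {r : ℕ} {D : Fin r → Subgroup (GK K)} {a b : ℕ} {ρ₁ : Rep K ℓ a} {ρ₂ : Rep K ℓ b}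
    (ha : a = 1) (h1 : ∀ σ, ρ₁ σ = 1) (h : ¬ HasSelmerClass S D ρ₂) : AllSplit S D (fun _ _ => 1) ρ₁ ρ₂ := by
  subst ha
  intro c h2 h3 h4 h5
  have hm1 : ∀ σ, mat ρ₁ σ = 1 := fun σ => by
    show ((ρ₁ σ : GL (Fin 1) (PadicAlgCl ℓ)) : Matrix (Fin 1) (Fin 1) (PadicAlgCl ℓ)) = 1
    rw [h1, Units.val_one]
  have hex : ∃ x : Fin b → PadicAlgCl ℓ, ∀ σ, (fun p => c σ p 0) = mat ρ₂ σ *ᵥ x - x := by
    by_contra hcon
    refine h ⟨fun σ p => c σ p 0, continuous_pi fun p => h2 p 0, fun σ τ => ?_, fun v hv σ hσ => ?_, fun i => ?_, hcon⟩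
    · funext p
      show c (σ * τ) p 0 = c σ p 0 + (mat ρ₂ σ *ᵥ fun q => c τ q 0) p
      rw [h3, hm1, Matrix.mul_one, Matrix.add_apply, add_comm, Matrix.mul_apply]
      rfl
    · funext p
      show c σ p 0 = 0
      rw [h4 v hv σ hσ, Matrix.zero_apply]
    · obtain ⟨u, hu⟩ := h5 i (fun _ => 1) (fun σ _ => by
        rw [hm1, Matrix.one_mulVec, one_smul])
      refine ⟨-u, fun σ hσ => ?_⟩
      have h6 := hu σ hσ
      rw [one_smul] at h6
      funext p
      have h7 := congrFun h6 p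
      rw [Pi.add_apply] at h7
      have h8 : (c σ *ᵥ fun _ => (1 : PadicAlgCl ℓ)) p = c σ p 0 := by
        rw [Matrix.mulVec, dotProduct, Fin.sum_univ_one, mul_one]
      rw [h8] at h7
      rw [Matrix.mulVec_neg, Pi.sub_apply, Pi.neg_apply, Pi.neg_apply]
      show c σ p 0 = _
      rw [eq_sub_of_add_eq' h7]
      ring
  obtain ⟨x, hx⟩ := hex
  refine ⟨Matrix.of fun p _ => x p, fun σ => ?_⟩
  rw [hm1, Matrix.mul_one]
  ext p q
  have h6 := congrFun (hx σ) p
  have hq : q = 0 := Subsingleton.elim _ _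
  subst hq
  rw [Matrix.sub_apply, Matrix.mul_apply]
  exact h6

theorem classes (hn : n = ∑ i, d i) (hd : ∀ i, 0 < d i) {Near : ℕ → Rep K ℓ n → Prop}
    (hdec : Decomposition S ρ Near) : SelmerClasses S ρ Near := by
  classical
  intro r D happ hs j hj1 hj2
  by_contra hcon
  push Not at hcon
  obtain ⟨m, hm⟩ := hdec r D (fun _ _ => 1) {j} (fun b hb a ha => by
    rw [Finset.mem_singleton] at hb ha
    subst hb
    exact split_of_no_class hj1 hj2 (hcon a ha)) 0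
  obtain ⟨ρ', h1, h2, h3⟩ := happ m
  obtain ⟨i, hi⟩ : ∃ i : Fin s, i ≠ j := by
    have : Nontrivial (Fin s) := Fin.nontrivial_iff_two_le.2 hs
    exact exists_ne j
  exact not_irreducible hn hd (hm ρ' h1 h2) (Finset.mem_singleton_self j) (fun h => hi (Finset.mem_singleton.1 h)) h3

end proof

theorem result (K : Type) [Field K] [NumberField K] (ℓ : ℕ) [Fact ℓ.Prime] (S : Set (HeightOneSpectrum (𝓞 K)))
    (hS : S.Finite) (n s : ℕ) (d : Fin s → ℕ) (hn : n = ∑ i, d i) :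
    (∀ ρ : ∀ i, Rep K ℓ (d i), (∀ i, Unramified S (ρ i)) → (∀ i, Irreducible (ρ i)) →
      Decomposition S ρ (fun m (ρ' : Rep K ℓ n) => Unramified S ρ' ∧ CongruentMostly S m ρ ρ') ∧
      StronglyConnected S ρ (fun m (ρ' : Rep K ℓ n) => Unramified S ρ' ∧ CongruentMostly S m ρ ρ') ∧
      SelmerClasses S ρ fun m (ρ' : Rep K ℓ n) => Unramified S ρ' ∧ CongruentMostly S m ρ ρ') ∧
    ∀ U : Subgroup (GK K), IsOpen (U : Set (GK K)) → ∃ P : Finset (HeightOneSpectrum (𝓞 K)), (∀ v ∈ P, v ∉ S) ∧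
      ∀ ρ : ∀ i, Rep K ℓ (d i), (∀ i, AdmAdic S U (ρ i)) → (∀ i, Irreducible (ρ i)) →
        Decomposition S ρ (fun m (ρ' : Rep K ℓ n) => AdmAdic S U ρ' ∧ ∀ v ∈ P, CongruentAt m ρ ρ' v) ∧
        StronglyConnected S ρ (fun m (ρ' : Rep K ℓ n) => AdmAdic S U ρ' ∧ ∀ v ∈ P, CongruentAt m ρ ρ' v) ∧
        SelmerClasses S ρ fun m (ρ' : Rep K ℓ n) => AdmAdic S U ρ' ∧ ∀ v ∈ P, CongruentAt m ρ ρ' v := by
  refine ⟨fun ρ hρ hirr => ?_, fun U hU => ?_⟩
  · have h1 := decomposition (n := n) hS hρ hirr hn (fun m (ρ' : Rep K ℓ n) => Unramified S ρ' ∧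
      CongruentMostly S m ρ ρ') (fun m ρ' ⟨hρ', δ, hδ, h⟩ => ⟨hρ', fun σ =>
        traces_most' hS (fun i => (hρ i).1) hρ'.1 m δ hδ h σ⟩)
    exact ⟨h1, connected hn (fun i => (hirr i).1) h1, classes hn (fun i => (hirr i).1) h1⟩
  · obtain ⟨P, hPS, hP⟩ := exists_P S hS U hU ℓ n
    refine ⟨P, hPS, fun ρ hρ hirr => ?_⟩
    obtain ⟨ρ₀, hρ₀, htr₀⟩ := exists_sum hρ hn
    have h1 := decomposition (n := n) hS (fun i => ⟨(hρ i).1, (hρ i).2.1⟩) hirr hn (fun m (ρ' : Rep K ℓ n) =>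
      AdmAdic S U ρ' ∧ ∀ v ∈ P, CongruentAt m ρ ρ' v) (fun m ρ' ⟨hρ', h⟩ => ⟨⟨hρ'.1, hρ'.2.1⟩, fun σ => by
        have h2 := isometry (ℓ := ℓ) hP ρ' ρ₀ hρ' hρ₀ (‖(ℓ : PadicAlgCl ℓ)‖ ^ m) (pow_nonneg (norm_nonneg _) _)
          (fun v hv σ hσ => by
            have h3 := h v hv σ hσ
            have h4 := htr₀ σ⁻¹
            show ‖(mt ρ' σ⁻¹).trace - (mt ρ₀ σ⁻¹).trace‖ ≤ _
            rw [h4]
            exact h3) σ
        have h5 := htr₀ σ
        have h6 : ‖(mt ρ' σ).trace - (mt ρ₀ σ).trace‖ ≤ ‖(ℓ : PadicAlgCl ℓ)‖ ^ m := h2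
        rw [h5] at h6
        exact h6⟩)
    exact ⟨h1, connected hn (fun i => (hirr i).1) h1, classes hn (fun i => (hirr i).1) h1⟩

end Pool.Agent.Results.MP_b4b3cb_nt.SelmerClassesFromApproximations
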